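import Pool.Agent.TH242.MK.OutReg

/-!
# Families of ovals with analytically integrable outer or inner billiards

Outer billiards: the case of MP_ae5b4e_an in which all `σ_p` are the point reflections in `p` and
the leaves are the level sets of a real analytic function near `γ`.  Inner billiards: the case which
is dual to the reflection in `γ`.
-/

set_option autoImplicit false

open Complex Set

namespace Pool.Agent.Results.MP_ae5b4e_an.CurvatureFamilies

/-- `γ` is a closed plane curve with positive continuous radius of curvature `ρ`, parametrised by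
its normal angle: `γ'(s) = ρ(s) i e^{is}`; the outer unit normal at `γ s` is `e^{is}`. -/
def IsOval (γ : ℝ → ℂ) (ρ : ℝ → ℝ) : Prop :=
  (∀ s, γ (s + 2 * Real.pi) = γ s) ∧ Continuous ρ ∧ (∀ s, 0 < ρ s) ∧
    ∀ s : ℝ, HasDerivAt γ ((ρ s : ℂ) * I * cexp (s * I)) s

/-- the point at signed distance `δ` from `γ s` on the tangent line at `γ s` -/
noncomputable def tangentPoint (γ : ℝ → ℂ) (s δ : ℝ) : ℂ := γ s + δ * (I * cexp (s * I))

/-- The outer billiard about `γ` has a nonconstant real analytic first integral `K(x, y)` near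
`γ`: it is analytic and nonconstant on a connected neighbourhood `U` of `γ`, and for every `s` it
has the same value at the two points at distance `δ` from `γ s` on the tangent line at `γ s`, which
the reflection in `γ s` exchanges, for all small `δ > 0`. -/
def HasOuterIntegral (γ : ℝ → ℂ) : Prop :=
  ∃ (K : ℝ → ℝ → ℝ) (U : Set (ℝ × ℝ)),
    IsOpen U ∧ IsPreconnected U ∧ (∀ s, ((γ s).re, (γ s).im) ∈ U) ∧
    AnalyticOnNhd ℝ (Function.uncurry K) U ∧
    (∀ s : ℝ, ∃ ε > 0, ∀ δ : ℝ, 0 < δ → δ < ε →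
      K (tangentPoint γ s δ).re (tangentPoint γ s δ).im
        = K (tangentPoint γ s (-δ)).re (tangentPoint γ s (-δ)).im) ∧
    ∃ z ∈ U, ∃ w ∈ U, K z.1 z.2 ≠ K w.1 w.2

/-- support coordinate of the line with unit normal `e^{iφ}` through the point `z` -/
noncomputable def support (z : ℂ) (φ : ℝ) : ℝ := (z * cexp (-(φ * I))).re

/-- The billiard inside `γ` has a nonconstant real analytic first integral `K(φ, p)` near the
boundary: a function of the oriented line with normal angle `φ` and support coordinate `p`, which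
is analytic and nonconstant near the tangent lines of `γ`, and which for every `s` has the same
value at the two lines through `γ s` with normal angles `s + δ` and `s - δ`, for all small
`δ > 0`. -/
def HasInnerIntegral (γ : ℝ → ℂ) : Prop :=
  ∃ (K : ℝ → ℝ → ℝ) (ε : ℝ), 0 < ε ∧
    AnalyticOnNhd ℝ (Function.uncurry K) {z | |z.2 - support (γ z.1) z.1| < ε} ∧
    (∀ s : ℝ, ∃ εs > 0, ∀ δ : ℝ, 0 < δ → δ < εs →
      K (s + δ) (support (γ s) (s + δ)) = K (s - δ) (support (γ s) (s - δ))) ∧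
    ∃ φ p ψ q : ℝ, |p - support (γ φ) φ| < ε ∧ |q - support (γ ψ) ψ| < ε ∧ K φ p ≠ K ψ q

/-- `θ`, the normal angle as a function of the time, is an entire motion along an oval with the
radius of curvature `ρ`: the angular velocity `w = θ'` and the speed `v = ρ(θ) θ'` extend to entire
functions of period `2π` (for instance `θ(t) = t`, if `ρ` extends to an entire function). -/
def IsEntireMotion (ρ θ : ℝ → ℝ) : Prop :=
  ∃ v w : ℂ → ℂ, Differentiable ℂ v ∧ Differentiable ℂ w ∧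
    (∀ z, v (z + 2 * Real.pi) = v z) ∧ (∀ z, w (z + 2 * Real.pi) = w z) ∧
    Function.Surjective θ ∧ (∀ t : ℝ, HasDerivAt (fun t : ℝ => (θ t : ℂ)) (w t) t) ∧
    ∀ t : ℝ, v t = ρ (θ t) * w t

/-- entire functions of order less than one in `e^{it}` (periodicity is not required) -/
def Tame (σ : ℝ) (f : ℂ → ℂ) : Prop :=
  Differentiable ℂ f ∧ ∃ A : ℝ, 0 ≤ A ∧ ∀ z : ℂ, ‖f z‖ ≤ Real.exp (A * Real.exp (σ * ‖z‖))

lemma tangentPoint_re (γ : ℝ → ℂ) (s δ : ℝ) :
    (tangentPoint γ s δ).re = (γ s).re - δ * Real.sin s := by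
  simp [tangentPoint, Complex.exp_ofReal_mul_I_re, Complex.exp_ofReal_mul_I_im]
  ring

lemma tangentPoint_im (γ : ℝ → ℂ) (s δ : ℝ) :
    (tangentPoint γ s δ).im = (γ s).im + δ * Real.cos s := by
  simp [tangentPoint, Complex.exp_ofReal_mul_I_re, Complex.exp_ofReal_mul_I_im]

lemma outer {γ : ℝ → ℂ} (h : HasOuterIntegral γ) : ∃ K U, H719FX.OInt γ K U := by
  obtain ⟨K, U, h1, h2, h3, h4, h5, z, hz, w, hw, hne⟩ := h
  refine ⟨K, U, h1, h2, h3, h4, fun s => ?_, ?_⟩
  · obtain ⟨ε, hε, h⟩ := h5 s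
    refine ⟨ε, hε, fun δ hδ hδ' => ?_⟩
    have := h δ hδ hδ'
    simpa [tangentPoint_re, tangentPoint_im, sub_eq_add_neg] using this
  · rintro ⟨c, hc⟩
    exact hne ((hc z hz).trans (hc w hw).symm)

open Pool.Agent.TH242.MK in
/-- the radius of curvature along an entire motion has a zero-free entire extension -/
lemma ext {γ : ℝ → ℂ} {ρ θ : ℝ → ℝ} (hOv : IsOval γ ρ) (hm : IsEntireMotion ρ θ)
    (h : HasOuterIntegral γ ∨ HasInnerIntegral γ) :
    ∃ P : ℂ → ℂ, Ext (fun t => ρ (θ t)) P := by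
  obtain ⟨v, w, m1, m2, m3, m4, m5, m6, m7⟩ := hm
  obtain ⟨o1, o2, o3, o4⟩ := hOv
  have hD : Dat γ ρ θ v w := ⟨m1, m2, m3, m4, m5, m6, m7⟩
  rcases h with h | ⟨K, ε, hε, hK, hsym, φ, p, ψ, q, hp, hq, hne⟩
  · obtain ⟨K, U, hK⟩ := outer h
    exact outer_ext ⟨o1, o2, o3, o4⟩ hK hD
  · obtain ⟨Z, W, Θ, hc, hZ, hW⟩ := hD.curve ⟨o1, o2, o3, o4⟩
    refine hD.ext ⟨o1, o2, o3, o4⟩ hc fun t0 => inner_reg ⟨o1, o2, o3, o4⟩ hε hK hsym ?_ hD.cont
      hD.sur (fun t => (hc.hZ t).differentiableAt) (fun t => (hc.hW t).differentiableAt) hZ hW t0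
    rintro ⟨k, hk⟩
    exact hne ((hk φ p hp).trans (hk ψ q hq).symm)

/-- Let `γ_1, ..., γ_n` be ovals with the radii of curvature `ρ_i`, each of which has a nonconstant
real analytic first integral of its outer billiard near `γ_i` or of its inner billiard near the
boundary, and let `θ_i` be an entire motion along `γ_i`.  If no `γ_i` is a circle, no two of the
functions `ρ_i(θ_i(t))` are proportional, and all of them are combinations
`b_i(t) ρ_i(θ_i(t)) = ∑_j c_{ij}(t) u_j(t) + q_i(t)` of the same `k` arbitrary functions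
`u_1, ..., u_k` with coefficients `b_i ≠ 0`, `c_{ij}`, `q_i` of order less than one in `e^{it}`,
then `n ≤ k`. -/
theorem result (n k : ℕ) (γ : Fin n → ℝ → ℂ) (ρ θ : Fin n → ℝ → ℝ)
    (hov : ∀ i, IsOval (γ i) (ρ i)) (hmot : ∀ i, IsEntireMotion (ρ i) (θ i))
    (hint : ∀ i, HasOuterIntegral (γ i) ∨ HasInnerIntegral (γ i))
    (hnc : ∀ i, ¬ ∃ (z : ℂ) (r : ℝ), Set.range (γ i) = Metric.sphere z r)
    (hnp : ∀ i j, i ≠ j → ¬ ∃ r : ℝ, ∀ t, ρ i (θ i t) = r * ρ j (θ j t))
    (σ : ℝ) (hσ0 : 0 ≤ σ) (hσ : σ < 1) (u : Fin k → ℝ → ℂ) (b q : Fin n → ℂ → ℂ)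
    (c : Fin n → Fin k → ℂ → ℂ) (hb : ∀ j, Tame σ (b j)) (hb0 : ∀ j, ∃ z, b j z ≠ 0)
    (hc : ∀ j i, Tame σ (c j i)) (hq : ∀ j, Tame σ (q j))
    (hρ : ∀ (j : Fin n) (t : ℝ), b j t * (ρ j (θ j t) : ℂ) = ∑ i, c j i t * u i t + q j t) :
    n ≤ k := by
  choose P hP using fun i => ext (hov i) (hmot i) (hint i)
  refine TH242.MK.few (ρ := fun i t => ρ i (θ i t)) (R := P) hP (fun i => ?_) hnp hσ0 hσ u hb hb0
    hc hq (fun j x => hρ j x)
  rintro ⟨r, hr⟩
  obtain ⟨o1, o2, o3, o4⟩ := hov i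
  obtain ⟨-, -, -, -, -, -, hsur, -, -⟩ := hmot i
  obtain ⟨z, r', -, h⟩ := TH242.MK.circle (γ := γ i) (ρ := ρ i) ⟨o1, o2, o3, o4⟩ (c := r)
    (fun s => by
      obtain ⟨t, rfl⟩ := hsur s
      exact hr t)
  exact hnc i ⟨z, r', h⟩

end Pool.Agent.Results.MP_ae5b4e_an.CurvatureFamilies
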