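import Pool.Agent.H719R4.FX.Fin3

/-!
# The complexified boundary of a billiard table with an analytic first integral is regular

By projective duality the (inner) billiard inside an oval `γ` is the case of MP_ae5b4e_an in which
the involution of the tangent line of the dual curve (the pencil of the lines through a point of
`γ`) is dual to the reflection in `γ`.
-/

set_option autoImplicit false

open Complex Set Metric

namespace Pool.Agent.Results.MP_ae5b4e_an.InnerComplexification

/-- `γ` is a closed plane curve with positive continuous radius of curvature `ρ`, parametrised by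
its normal angle: `γ'(s) = ρ(s) i e^{is}`; the outer unit normal at `γ s` is `e^{is}`. -/
def IsOval (γ : ℝ → ℂ) (ρ : ℝ → ℝ) : Prop :=
  (∀ s, γ (s + 2 * Real.pi) = γ s) ∧ Continuous ρ ∧ (∀ s, 0 < ρ s) ∧
    ∀ s : ℝ, HasDerivAt γ ((ρ s : ℂ) * I * cexp (s * I)) s

/-- support coordinate of the line with unit normal `e^{iφ}` through the point `z`: the line is
`{x | Re (x e^{-iφ}) = support z φ}` -/
noncomputable def support (z : ℂ) (φ : ℝ) : ℝ := (z * cexp (-(φ * I))).re

/-- `K(φ, p)` is a nonconstant real analytic first integral of the billiard inside `γ` near the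
boundary: a function of the oriented line with normal angle `φ` and support coordinate `p`, which
is analytic and nonconstant near the tangent lines of `γ` (`|p - support (γ φ) φ| < ε`; periodicity
in `φ` is not required), and which for every `s` has the same value at the two lines through `γ s`
with normal angles `s + δ` and `s - δ` (exchanged by the reflection in `γ` at `γ s`), for all small
`δ > 0`. -/
def IsIntegralNear (γ : ℝ → ℂ) (K : ℝ → ℝ → ℝ) (ε : ℝ) : Prop :=
  0 < ε ∧ AnalyticOnNhd ℝ (Function.uncurry K) {z | |z.2 - support (γ z.1) z.1| < ε} ∧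
    (∀ s : ℝ, ∃ εs > 0, ∀ δ : ℝ, 0 < δ → δ < εs →
      K (s + δ) (support (γ s) (s + δ)) = K (s - δ) (support (γ s) (s - δ))) ∧
    ∃ φ p ψ q : ℝ, |p - support (γ φ) φ| < ε ∧ |q - support (γ ψ) ψ| < ε ∧ K φ p ≠ K ψ q

/-- The pair `(F, G)` on the disc of centre `c` and radius `r` is an analytic continuation of the
boundary: there is a chain of discs, the last of which is this disc and consecutive ones of which
intersect, with pairs `(Z i, W i)` of analytic functions on them that agree on consecutive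
intersections, the last of which is `(F, G)` and the first of which is
`(γ (θ t), conj (γ (θ t)))` for real `t` in an interval `(x0, x1)` in the first disc, where the
change of parameter `θ` is continuous and `γ ∘ θ` is not constant. -/
def IsContinuation (γ : ℝ → ℂ) (c : ℂ) (r : ℝ) (F G : ℂ → ℂ) : Prop :=
  ∃ (k : ℕ) (a : ℕ → ℂ) (d : ℕ → ℝ) (Z W : ℕ → ℂ → ℂ) (θ : ℝ → ℝ) (x0 x1 : ℝ),
    (∀ i, i ≤ k → DifferentiableOn ℂ (Z i) (ball (a i) (d i)) ∧
      DifferentiableOn ℂ (W i) (ball (a i) (d i))) ∧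
    (∀ i, i < k → (ball (a i) (d i) ∩ ball (a (i + 1)) (d (i + 1))).Nonempty ∧
      EqOn (Z i) (Z (i + 1)) (ball (a i) (d i) ∩ ball (a (i + 1)) (d (i + 1))) ∧
      EqOn (W i) (W (i + 1)) (ball (a i) (d i) ∩ ball (a (i + 1)) (d (i + 1)))) ∧
    ContinuousOn θ (Ioo x0 x1) ∧
    (∀ t ∈ Ioo x0 x1, (t : ℂ) ∈ ball (a 0) (d 0) ∧ Z 0 t = γ (θ t) ∧
      W 0 t = (starRingEnd ℂ) (γ (θ t))) ∧
    (∃ s ∈ Ioo x0 x1, ∃ t ∈ Ioo x0 x1, γ (θ s) ≠ γ (θ t)) ∧
    a k = c ∧ d k = r ∧ EqOn (Z k) F (ball c r) ∧ EqOn (W k) G (ball c r)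

/-- `z` is a regular place of the complex curve `(F, G)`: up to a change of parameter `h` (possibly
ramified, if the parametrisation `(F, G)` is) the curve is immersed and has no inflection at `z`. -/
def IsRegularPlace (F G : ℂ → ℂ) (z : ℂ) : Prop :=
  ∃ h F₁ G₁ : ℂ → ℂ, AnalyticAt ℂ h z ∧ h z = 0 ∧ AnalyticAt ℂ F₁ 0 ∧ AnalyticAt ℂ G₁ 0 ∧
    (∀ᶠ t in nhds z, F t = F₁ (h t)) ∧ (∀ᶠ t in nhds z, G t = G₁ (h t)) ∧
    deriv F₁ 0 * deriv (deriv G₁) 0 - deriv (deriv F₁) 0 * deriv G₁ 0 ≠ 0

/-- Let `γ` be an oval with a nonconstant real analytic first integral of the billiard inside `γ`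
near the boundary.  Then every analytic continuation of the complexified boundary
`(γ, conj γ)`, in any parameter, has only regular places: the complexified curve has neither
singular branches nor inflection points. -/
theorem result (γ : ℝ → ℂ) (ρ : ℝ → ℝ) (hγ : IsOval γ ρ) (K : ℝ → ℝ → ℝ) (ε : ℝ)
    (hK : IsIntegralNear γ K ε) (c : ℂ) (r : ℝ) (F G : ℂ → ℂ) (h : IsContinuation γ c r F G) :
    ∀ z ∈ ball c r, IsRegularPlace F G z := by
  obtain ⟨o1, o2, o3, o4⟩ := hγ
  obtain ⟨hε, hKa, hsym, φ, p, ψ, q, hp, hq, hne⟩ := hK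
  obtain ⟨k, a, d, Z, W, θ, x0, x1, hd, hi, hθ, h0, hnc, rfl, rfl, hF, hG⟩ := h
  intro z hz
  obtain ⟨h', F₁, G₁, e1, e2, e3, e4, e5, e6, e7⟩ := (H719FX.fin_flz γ ρ ⟨o1, o2, o3, o4⟩ K ε hε
    hKa hsym (by
      rintro ⟨k, hk⟩
      exact hne ((hk φ p hp).trans (hk ψ q hq).symm)) k a d Z W
    ⟨fun i hi' => (hd i hi').1, fun i hi' => (hd i hi').2, fun i hi' => (hi i hi').1,
      fun i hi' => (hi i hi').2.1, fun i hi' => (hi i hi').2.2⟩ θ x0 x1 hθ h0 hnc z hz).2
  have hn : ball (a k) (d k) ∈ nhds z := isOpen_ball.mem_nhds hz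
  refine ⟨h', F₁, G₁, e1, e2, e3, e4, ?_, ?_, e7⟩
  · filter_upwards [e5, hn] with t ht ht'
    rw [← ht, hF ht']
  · filter_upwards [e6, hn] with t ht ht'
    rw [← ht, hG ht']

end Pool.Agent.Results.MP_ae5b4e_an.InnerComplexification
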