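import Pool.Agent.TH242.MK.Strip
import Pool.Agent.TH242.MK.Base

/-!
# Billiards with an analytic first integral: an oscillation bound for the curvature

By projective duality the (inner) billiard inside an oval `γ` is the case of MP_ae5b4e_an in which
the involution of the tangent line of the dual curve (the pencil of the lines through a point of
`γ`) is dual to the reflection in `γ`.
-/

set_option autoImplicit false

open Complex Set Metric

namespace Pool.Agent.Results.MP_ae5b4e_an.InnerCurvatureBounds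

/-- `γ` is a closed plane curve with positive continuous radius of curvature `ρ`, parametrised by
its normal angle: `γ'(s) = ρ(s) i e^{is}`; the outer unit normal at `γ s` is `e^{is}`. -/
def IsOval (γ : ℝ → ℂ) (ρ : ℝ → ℝ) : Prop :=
  (∀ s, γ (s + 2 * Real.pi) = γ s) ∧ Continuous ρ ∧ (∀ s, 0 < ρ s) ∧
    ∀ s : ℝ, HasDerivAt γ ((ρ s : ℂ) * I * cexp (s * I)) s

/-- support coordinate of the line with unit normal `e^{iφ}` through the point `z`: the line is
`{x | Re (x e^{-iφ}) = support z φ}` -/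
noncomputable def support (z : ℂ) (φ : ℝ) : ℝ := (z * cexp (-(φ * I))).re

/-- `K(φ, p)` is a nonconstant real analytic first integral of the billiard inside `γ` near the
boundary: a function of the oriented line with normal angle `φ` and support coordinate `p`, which
is analytic and nonconstant near the tangent lines of `γ` (`|p - support (γ φ) φ| < ε`; periodicity
in `φ` is not required), and which for every `s` has the same value at the two lines through `γ s`
with normal angles `s + δ` and `s - δ` (exchanged by the reflection in `γ` at `γ s`), for all small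
`δ > 0`. -/
def IsIntegralNear (γ : ℝ → ℂ) (K : ℝ → ℝ → ℝ) (ε : ℝ) : Prop :=
  0 < ε ∧ AnalyticOnNhd ℝ (Function.uncurry K) {z | |z.2 - support (γ z.1) z.1| < ε} ∧
    (∀ s : ℝ, ∃ εs > 0, ∀ δ : ℝ, 0 < δ → δ < εs →
      K (s + δ) (support (γ s) (s + δ)) = K (s - δ) (support (γ s) (s - δ))) ∧
    ∃ φ p ψ q : ℝ, |p - support (γ φ) φ| < ε ∧ |q - support (γ ψ) ψ| < ε ∧ K φ p ≠ K ψ q

theorem nz_strip {γ : ℝ → ℂ} {ρ : ℝ → ℝ} (h : IsOval γ ρ) {K : ℝ → ℝ → ℝ} {ε : ℝ}
    (hK : IsIntegralNear γ K ε) {a : ℝ}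
    {R : ℂ → ℂ} (hR : DifferentiableOn ℂ R {z | |z.im| < a}) (hRρ : ∀ x : ℝ, R x = ρ x) :
    ∀ z, |z.im| < a → R z ≠ 0 := by
  intro z hz
  have ha : 0 < a := (abs_nonneg _).trans_lt hz
  obtain ⟨a1, a2, a3, a4⟩ := h
  obtain ⟨b1, b2, b3, b4⟩ := hK
  refine TH242.MK.zero_free (γ := γ) (ρ := ρ) ⟨a1, a2, a3, a4⟩ ⟨K, ε, b1, ⟨b2, b3⟩, b4⟩
    (c := z.re) (r := a) (hR.mono ?_) ⟨z.re, mem_ball_self ha⟩ (fun x _ => hRρ x) z ?_
  · intro w hw
    rw [mem_ball, dist_eq_norm] at hw
    have h1 := Complex.abs_im_le_norm (w - (z.re : ℂ))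
    simp only [sub_im, ofReal_im, sub_zero] at h1
    exact h1.trans_lt hw
  · rw [mem_ball, dist_eq_norm]
    have h1 : z - (z.re : ℂ) = (z.im : ℂ) * I := by
      apply Complex.ext <;> simp
    rw [h1, norm_mul, Complex.norm_real, Complex.norm_I, mul_one, Real.norm_eq_abs]
    exact hz

/-- Let `γ` be an oval with a nonconstant real analytic first integral of the billiard inside `γ`
near the boundary, and let its radius of curvature `ρ`, as a function of the normal angle, extend to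
an analytic function `R` with `|R| ≤ M` in the strip `|Im z| < a`.  Then `log ρ` differs from its
mean `l` by at most `4 (log M - l) / (e^a - 1)`. -/
theorem result (γ : ℝ → ℂ) (ρ : ℝ → ℝ) (h : IsOval γ ρ) (K : ℝ → ℝ → ℝ) (ε : ℝ)
    (hK : IsIntegralNear γ K ε) (a M : ℝ)
    (ha : 0 < a) (R : ℂ → ℂ) (hR : DifferentiableOn ℂ R {z | |z.im| < a})
    (hRρ : ∀ x : ℝ, R x = ρ x) (hM : ∀ z : ℂ, |z.im| < a → ‖R z‖ ≤ M) (l : ℝ)
    (hl : l = (2 * Real.pi)⁻¹ * ∫ s in (0 : ℝ)..(2 * Real.pi), Real.log (ρ s)) (s : ℝ) :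
    |Real.log (ρ s) - l| ≤ 4 * (Real.log M - l) / (Real.exp a - 1) := by
  have h0 := nz_strip h hK hR hRρ
  obtain ⟨g, hg, hgR, hgr, hgp⟩ := TH242.MK.Str.rlog ha hR (fun z hz => h0 z hz) hRρ h.2.2.1
    (TH242.MK.Ov.per (γ := γ) h)
  have hL : ∀ z ∈ TH242.MK.Str a, (g z).re ≤ Real.log M := by
    intro z hz
    have h1 : Real.exp (g z).re = ‖R z‖ := by
      rw [← hgR z hz, Complex.norm_exp]
    have h2 : 0 < ‖R z‖ := norm_pos_iff.2 (h0 z hz)
    rw [← Real.log_exp (g z).re, h1]
    exact Real.log_le_log h2 (hM z hz)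
  have h3 := TH242.MK.Str.dev ha hg hgp (fun x => ⟨_, hgr x⟩) hL s
  have h4 : W743.BE.cf g 0 = ((∫ s in (0 : ℝ)..(2 * Real.pi), Real.log (ρ s) : ℝ) : ℂ) := by
    unfold W743.BE.cf
    rw [← intervalIntegral.integral_ofReal]
    refine intervalIntegral.integral_congr fun x _ => ?_
    simp only [Int.cast_zero, zero_mul, neg_zero, Complex.exp_zero, mul_one]
    exact hgr x
  rw [h4, hgr s, ofReal_re] at h3
  have h5 : ((Real.log (ρ s) : ℝ) : ℂ) -
      ((∫ s in (0 : ℝ)..(2 * Real.pi), Real.log (ρ s) : ℝ) : ℂ) / (2 * Real.pi) =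
      ((Real.log (ρ s) - l : ℝ) : ℂ) := by
    rw [hl]
    push_cast
    ring
  have h6 : (∫ s in (0 : ℝ)..(2 * Real.pi), Real.log (ρ s)) / (2 * Real.pi) = l := by
    rw [hl]
    ring
  rw [h5, Complex.norm_real, Real.norm_eq_abs, h6] at h3
  exact h3

end Pool.Agent.Results.MP_ae5b4e_an.InnerCurvatureBounds
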