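import Pool.Agent.W743.BE.Fin
import Pool.Agent.H719R4.FX.Fin3
import Pool.Agent.N264.MKI.Conf

/-!
# Inner billiards with an analytic first integral, boundaries parametrised by functions of order < 1

By projective duality the (inner) billiard inside an oval `γ` is the case of MP_ae5b4e_an in which
the involution of the tangent line of the dual curve (the pencil of the lines through a point of
`γ`) is dual to the reflection in `γ`, and confocal families are dual to pencils of conics.
-/

set_option autoImplicit false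

open Complex Set

namespace Pool.Agent.Results.MP_ae5b4e_an.InnerEntireTables

/-- `γ` is a closed plane curve with positive continuous radius of curvature `ρ`, parametrised by
its normal angle: `γ'(s) = ρ(s) i e^{is}`; the outer unit normal at `γ s` is `e^{is}`. -/
def IsOval (γ : ℝ → ℂ) (ρ : ℝ → ℝ) : Prop :=
  (∀ s, γ (s + 2 * Real.pi) = γ s) ∧ Continuous ρ ∧ (∀ s, 0 < ρ s) ∧
    ∀ s : ℝ, HasDerivAt γ ((ρ s : ℂ) * I * cexp (s * I)) s

/-- support coordinate of the line with unit normal `e^{iφ}` through the point `z`: the line is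
`{x | Re (x e^{-iφ}) = support z φ}` -/
noncomputable def support (z : ℂ) (φ : ℝ) : ℝ := (z * cexp (-(φ * I))).re

/-- `K(φ, p)` is a nonconstant real analytic first integral of the billiard inside `γ` near the
boundary: a function of the oriented line with normal angle `φ` and support coordinate `p`, which
is analytic and nonconstant near the tangent lines of `γ` (`|p - support (γ φ) φ| < ε`; periodicity
in `φ` is not required), and which for every `s` has the same value at the two lines through `γ s`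
with normal angles `s + δ` and `s - δ` (exchanged by the reflection in `γ` at `γ s`), for all small
`δ > 0`. -/
def IsIntegralNear (γ : ℝ → ℂ) (K : ℝ → ℝ → ℝ) (ε : ℝ) : Prop :=
  0 < ε ∧ AnalyticOnNhd ℝ (Function.uncurry K) {z | |z.2 - support (γ z.1) z.1| < ε} ∧
    (∀ s : ℝ, ∃ εs > 0, ∀ δ : ℝ, 0 < δ → δ < εs →
      K (s + δ) (support (γ s) (s + δ)) = K (s - δ) (support (γ s) (s - δ))) ∧
    ∃ φ p ψ q : ℝ, |p - support (γ φ) φ| < ε ∧ |q - support (γ ψ) ψ| < ε ∧ K φ p ≠ K ψ q

/-- `γ` is parametrised by a function of order less than one in `e^{it}`: there are a function `G`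
holomorphic on `ℂ ∖ {0}` with `|G(w)| ≤ exp (A (|w|^σ + |w|^{-σ}))`, `0 ≤ σ < 1`, and a continuous
surjective change of parameter `θ` with `γ(θ(t)) = G(e^{it})` for all real `t`. -/
def HasEntireParametrization (γ : ℝ → ℂ) : Prop :=
  ∃ (G : ℂ → ℂ) (A σ : ℝ) (θ : ℝ → ℝ), DifferentiableOn ℂ G {0}ᶜ ∧ 0 ≤ σ ∧ σ < 1 ∧
    (∀ w : ℂ, w ≠ 0 → ‖G w‖ ≤ Real.exp (A * (‖w‖ ^ σ + ‖w‖ ^ (-σ)))) ∧
    Continuous θ ∧ Function.Surjective θ ∧ ∀ t : ℝ, γ (θ t) = G (cexp (t * I))

/-- the ellipse of the points `(x, y)` with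
`a (x - u)² + 2 b (x - u) (y - v) + d (y - v)² = 1`, where `c = u + iv` -/
def conic (c : ℂ) (a b d : ℝ) : Set ℂ :=
  {x : ℂ | a * (x.re - c.re) ^ 2 + 2 * b * (x.re - c.re) * (x.im - c.im)
      + d * (x.im - c.im) ^ 2 = 1}

/-- The square of the support function of `conic c a b d` about its centre `c`.  The tangent lines
of the ellipse have the support coordinates `support c φ + √(supportSq a b d φ)`, and the tangent
lines of the ellipses confocal with it `support c φ + √(supportSq a b d φ - l)`, `l` constant. -/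
noncomputable def supportSq (a b d φ : ℝ) : ℝ :=
  (d * Real.cos φ ^ 2 - 2 * b * (Real.cos φ * Real.sin φ) + a * Real.sin φ ^ 2) / (a * d - b ^ 2)

/-- Let `γ` be an oval parametrised by a function of order less than one in `e^{it}`, and let `K`
be a nonconstant real analytic first integral of the billiard inside `γ` near the boundary.  Then
`γ` is an ellipse, and `K` is constant on the set of the tangent lines of every ellipse confocal
with `γ` and close to `γ`. -/
theorem result : ∀ (γ : ℝ → ℂ) (ρ : ℝ → ℝ), IsOval γ ρ → HasEntireParametrization γ →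
    ∀ (K : ℝ → ℝ → ℝ) (ε : ℝ), IsIntegralNear γ K ε →
    ∃ (c : ℂ) (a b d : ℝ), 0 < a ∧ 0 < a * d - b ^ 2 ∧ Set.range γ = conic c a b d ∧
      ∃ η > 0, ∀ l : ℝ, |l| < η → ∃ κ : ℝ, ∀ φ : ℝ, 0 < supportSq a b d φ - l ∧
        |support c φ + Real.sqrt (supportSq a b d φ - l) - support (γ φ) φ| < ε ∧
        K φ (support c φ + Real.sqrt (supportSq a b d φ - l)) = κ := by
  rintro γ ρ ⟨h1, h2, h3, h4⟩ ⟨G, A, σ, θ, hG, hσ, hσ1, hb, hθ, hθs, hγ⟩ K ε
    ⟨hε, hK, hsym, φ, p, ψ, q, hp, hq, hne⟩
  obtain ⟨d1, d2, d3⟩ := Pool.Agent.W743.BE.of_punctured hσ hG hb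
  obtain ⟨c, a, b, d, ha, hdet, hr⟩ := Pool.Agent.W743.BE.main H719FX.fin_flz γ ρ
    ⟨h1, h2, h3, h4⟩ K ε hε hK hsym (by
      rintro ⟨k, hk⟩
      exact hne ((hk φ p hp).trans (hk ψ q hq).symm)) _ σ hσ hσ1 d1 d2 d3 θ hθ hθs hγ
  obtain ⟨η, hη, hl⟩ := Pool.Agent.N264.MKI.conf h3 h4 ha hdet hr hε hK hsym
  refine ⟨c, a, b, d, ha, hdet, hr, η, hη, fun l hl' => ?_⟩
  obtain ⟨κ, hκ⟩ := hl l hl'
  exact ⟨κ, fun φ => ⟨(hκ φ).2.1, (hκ φ).1, (hκ φ).2.2⟩⟩

end Pool.Agent.Results.MP_ae5b4e_an.InnerEntireTables
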